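import Pool.Agent.W541.DL.Stm

set_option autoImplicit false

/-! Project DL, part CORR: independence of the values in disjoint corridors. -/

namespace Pool.Agent.W193.DL.CORR

open MeasureTheory ProbabilityTheory Filter Topology Pool.Agent.W541.DL

section
variable {Ω : Type} [MeasurableSpace Ω] {P : Measure Ω} {W : ℕ → ℝ → Ω → ℝ}

lemma memLp (h : IsBM P W) (k : ℕ) (t : ℝ) : MemLp (W k t) 2 P := by
  have h1 : HasGaussianLaw (W k t) P := h.gauss.hasGaussianLaw_eval (k, t)
  exact h1.memLp_two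

lemma cov_W (h : IsBM P W) (j k : ℕ) (s t : ℝ) :
    cov[W j s, W k t; P] = if j = k then (|s| + |t| - |s - t|) / 2 else 0 := by
  have : IsProbabilityMeasure P := h.gauss.isProbabilityMeasure
  rw [covariance_eq_sub (memLp h j s) (memLp h k t), ← h.cov j k s t, h.mean j s, zero_mul,
    sub_zero]
  rfl

lemma cov_inc (h : IsBM P W) (c : ℕ → ℝ) (j k : ℕ) (s t : ℝ) (hs : s ≤ c j) (ht : c k ≤ t) :
    cov[W j s - W j (c j), W k t - W k (c k); P] = 0 := by
  have : IsProbabilityMeasure P := h.gauss.isProbabilityMeasure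
  rw [covariance_sub_left (memLp h j s) (memLp h j (c j)) ((memLp h k t).sub (memLp h k (c k))),
    covariance_sub_right (memLp h j s) (memLp h k t) (memLp h k (c k)),
    covariance_sub_right (memLp h j (c j)) (memLp h k t) (memLp h k (c k)),
    cov_W h, cov_W h, cov_W h, cov_W h]
  by_cases hjk : j = k
  · subst hjk
    simp only [if_true, sub_self, abs_zero]
    rw [abs_of_nonpos (by linarith : s - t ≤ 0), abs_of_nonpos (by linarith : s - c j ≤ 0),
      abs_of_nonpos (by linarith : c j - t ≤ 0)]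
    ring
  · simp only [if_neg hjk, sub_self]

end

theorem main (hM : S_MEASK) : S_CORR := by
  classical
  intro Ω _ P W n x y β hW hn hβ hxy
  have hn0 : (0 : ℝ) < n := by exact_mod_cast hn
  set c : ℕ → ℝ := fun k => x + ((k : ℝ) + 1) / n + β with hc
  let X : {q : ℕ × ℝ // q.2 ≤ c q.1} → Ω → ℝ := fun q => W q.1.1 q.1.2 - W q.1.1 (c q.1.1)
  let Y : {q : ℕ × ℝ // c q.1 ≤ q.2} → Ω → ℝ := fun q => W q.1.1 q.1.2 - W q.1.1 (c q.1.1)
  have hX : ∀ q, Measurable (X q) := fun q => (hW.meas _ _).sub (hW.meas _ _)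
  have hY : ∀ q, Measurable (Y q) := fun q => (hW.meas _ _).sub (hW.meas _ _)
  have hG : IsGaussianProcess (Sum.elim X Y) P := by
    refine hW.gauss.of_isGaussianProcess fun s => ?_
    rcases s with q | q
    · exact ⟨{(q.1.1, q.1.2), (q.1.1, c q.1.1)},
        ContinuousLinearMap.proj ⟨(q.1.1, q.1.2), by simp⟩ -
          ContinuousLinearMap.proj ⟨(q.1.1, c q.1.1), by simp⟩, fun ω => rfl⟩
    · exact ⟨{(q.1.1, q.1.2), (q.1.1, c q.1.1)},
        ContinuousLinearMap.proj ⟨(q.1.1, q.1.2), by simp⟩ -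
          ContinuousLinearMap.proj ⟨(q.1.1, c q.1.1), by simp⟩, fun ω => rfl⟩
  have hI : IndepFun (fun ω s => X s ω) (fun ω s => Y s ω) P := by
    refine hG.indepFun_of_covariance_eq_zero (fun s => (hX s).aemeasurable)
      (fun s => (hY s).aemeasurable) fun s t => ?_
    exact cov_inc hW c s.1.1 t.1.1 s.1.2 t.1.2 s.2 t.2
  have hle1 : Measurable[MeasurableSpace.comap (fun ω s => X s ω) MeasurableSpace.pi]
      (fun ω => supK (env W ω) n (corr n x β)) := by
    refine hM Ω _ W n _ hW.cont fun τ hτ k hk => ?_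
    obtain ⟨hmono, h0, h1, h2⟩ := hτ
    have e2 : τ (k + 1) ≤ c k := by
      have := (abs_le.1 (h2 (k + 1) (by omega))).2
      rw [hc]
      push_cast at this
      simp only
      linarith
    have e1 : τ k ≤ c k := (hmono (Nat.le_succ k)).trans e2
    have m0 : Measurable[MeasurableSpace.comap (fun ω s => X s ω) MeasurableSpace.pi,
        MeasurableSpace.pi] (fun ω s => X s ω) := comap_measurable _
    have m1 : ∀ s, Measurable[MeasurableSpace.comap (fun ω s => X s ω) MeasurableSpace.pi]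
        (X s) := fun s => (measurable_pi_apply s).comp m0
    have h3 : (fun ω => W k (τ (k + 1)) ω - W k (τ k) ω) =
        fun ω => X ⟨(k, τ (k + 1)), e2⟩ ω - X ⟨(k, τ k), e1⟩ ω := by
      funext ω
      show _ = (W k (τ (k + 1)) ω - W k (c k) ω) - (W k (τ k) ω - W k (c k) ω)
      ring
    rw [h3]
    exact (m1 _).sub (m1 _)
  have hle2 : Measurable[MeasurableSpace.comap (fun ω s => Y s ω) MeasurableSpace.pi]
      (fun ω => supK (env W ω) n (corr n y β)) := by
    refine hM Ω _ W n _ hW.cont fun τ hτ k hk => ?_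
    obtain ⟨hmono, h0, h1, h2⟩ := hτ
    have e1 : c k ≤ τ k := by
      have := (abs_le.1 (h2 k (by omega))).1
      have h5 : ((k : ℝ) + 1) / n = k / n + 1 / n := by rw [add_div]
      rw [hc]
      simp only
      rw [h5]
      linarith
    have e2 : c k ≤ τ (k + 1) := e1.trans (hmono (Nat.le_succ k))
    have m0 : Measurable[MeasurableSpace.comap (fun ω s => Y s ω) MeasurableSpace.pi,
        MeasurableSpace.pi] (fun ω s => Y s ω) := comap_measurable _
    have m1 : ∀ s, Measurable[MeasurableSpace.comap (fun ω s => Y s ω) MeasurableSpace.pi]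
        (Y s) := fun s => (measurable_pi_apply s).comp m0
    have h3 : (fun ω => W k (τ (k + 1)) ω - W k (τ k) ω) =
        fun ω => Y ⟨(k, τ (k + 1)), e2⟩ ω - Y ⟨(k, τ k), e1⟩ ω := by
      funext ω
      show _ = (W k (τ (k + 1)) ω - W k (c k) ω) - (W k (τ k) ω - W k (c k) ω)
      ring
    rw [h3]
    exact (m1 _).sub (m1 _)
  rw [IndepFun_iff_Indep] at hI ⊢
  exact indep_of_indep_of_le_left (indep_of_indep_of_le_right hI hle2.comap_le) hle1.comap_le

end Pool.Agent.W193.DL.CORR
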